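import Pool.Agent.Helper54.SR.Defs

/-!
# SR-D6c: evaluation of `OO k` at `u = 0` and at `u = t`
-/

set_option autoImplicit false
open scoped Pointwise
open Polynomial Pool.Agent.Helper54.PW

namespace Pool.Agent.Helper54.SR

section series
variable {k : Type} [Field k]

/-- a ring hom from `OO k` in terms of its values on `jO` -/
private theorem h37_eval_jO (e : OO k →+* PowerSeries k) (x : PowerSeries k)
    (h1 : ∀ a : PowerSeries k, e (PowerSeries.map (PowerSeries.C (R := k)) a) = a)
    (h2 : e (uO k) = x) (H : (PowerSeries k)[X][X]) (y : PowerSeries k) :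
    e ((H.map (jO k)).eval (PowerSeries.C y)) = evalEval x (e (PowerSeries.C y)) H := by
  have h3 : e.comp (jO k) = evalRingHom x := by
    apply Polynomial.ringHom_ext
    · intro a
      rw [RingHom.comp_apply, jO, coe_eval₂RingHom, eval₂_C, h1, coe_evalRingHom, eval_C]
    · rw [RingHom.comp_apply, jO, coe_eval₂RingHom, eval₂_X, h2, coe_evalRingHom, eval_X]
  rw [← Polynomial.eval₂_hom, Polynomial.eval₂_eq_eval_map, Polynomial.map_map, h3,
    Polynomial.map_evalRingHom_eval]

/-- SR-D6c: evaluation at `u = 0` -/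
theorem exists_ev0 (k : Type) [Field k] : ∃ e : OO k →+* PowerSeries k,
    (∀ y : PowerSeries k, e (PowerSeries.C y) = PowerSeries.C (PowerSeries.constantCoeff y)) ∧
    ∀ (H : (PowerSeries k)[X][X]) (y : PowerSeries k),
      e ((H.map (jO k)).eval (PowerSeries.C y)) =
        evalEval 0 (PowerSeries.C (PowerSeries.constantCoeff y)) H := by
  have hC : ∀ y : PowerSeries k, PowerSeries.map (PowerSeries.constantCoeff (R := k))
      (PowerSeries.C y) = PowerSeries.C (PowerSeries.constantCoeff y) := by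
    intro y
    rw [PowerSeries.map_C]
  refine ⟨PowerSeries.map (PowerSeries.constantCoeff (R := k)), hC, fun H y => ?_⟩
  rw [h37_eval_jO (PowerSeries.map (PowerSeries.constantCoeff (R := k))) 0 ?_ ?_ H y, hC]
  · intro a
    ext n
    simp
  · rw [uO, hC]
    simp

/-- the diagonal -/
private noncomputable def h37_dg (F : OO k) : PowerSeries k :=
  PowerSeries.mk fun N => ∑ p ∈ Finset.HasAntidiagonal.antidiagonal N,
    PowerSeries.coeff p.2 (PowerSeries.coeff p.1 F)

private theorem h37_coeff (F : OO k) (N : ℕ) : PowerSeries.coeff N (h37_dg F) =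
    ∑ p ∈ Finset.HasAntidiagonal.antidiagonal N, PowerSeries.coeff p.2 (PowerSeries.coeff p.1 F) := by
  rw [h37_dg, PowerSeries.coeff_mk]

private theorem h37_C (y : PowerSeries k) : h37_dg (PowerSeries.C y) = y := by
  ext N
  rw [h37_coeff, Finset.sum_eq_single (0, N)]
  · simp
  · intro p hp hne
    have hp1 : p.1 ≠ 0 := by
      intro h
      apply hne
      have := Finset.HasAntidiagonal.mem_antidiagonal.1 hp
      exact Prod.ext h (by simp only; omega)
    rw [PowerSeries.coeff_C, if_neg hp1, map_zero]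
  · intro h
    exact absurd (Finset.HasAntidiagonal.mem_antidiagonal.2 (by simp)) h

private theorem h37_mul (F G : OO k) : h37_dg (F * G) = h37_dg F * h37_dg G := by
  ext N
  rw [h37_coeff, PowerSeries.coeff_mul]
  have h1 : ∀ p ∈ Finset.HasAntidiagonal.antidiagonal N,
      PowerSeries.coeff p.2 (PowerSeries.coeff p.1 (F * G)) =
      ∑ x ∈ Finset.HasAntidiagonal.antidiagonal p.1 ×ˢ Finset.HasAntidiagonal.antidiagonal p.2,
        PowerSeries.coeff x.2.1 (PowerSeries.coeff x.1.1 F) *
          PowerSeries.coeff x.2.2 (PowerSeries.coeff x.1.2 G) := by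
    intro p _
    rw [PowerSeries.coeff_mul, map_sum, Finset.sum_product]
    refine Finset.sum_congr rfl fun q _ => ?_
    rw [PowerSeries.coeff_mul]
  have h2 : ∀ p ∈ Finset.HasAntidiagonal.antidiagonal N,
      PowerSeries.coeff p.1 (h37_dg F) * PowerSeries.coeff p.2 (h37_dg G) =
      ∑ x ∈ Finset.HasAntidiagonal.antidiagonal p.1 ×ˢ Finset.HasAntidiagonal.antidiagonal p.2,
        PowerSeries.coeff x.1.2 (PowerSeries.coeff x.1.1 F) *
          PowerSeries.coeff x.2.2 (PowerSeries.coeff x.2.1 G) := by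
    intro p _
    rw [h37_coeff, h37_coeff, Finset.sum_mul_sum, Finset.sum_product]
  rw [Finset.sum_congr rfl h1, Finset.sum_congr rfl h2, Finset.sum_sigma', Finset.sum_sigma']
  refine Finset.sum_nbij'
    (i := fun s => ⟨(s.2.1.1 + s.2.2.1, s.2.1.2 + s.2.2.2), ((s.2.1.1, s.2.2.1), (s.2.1.2, s.2.2.2))⟩)
    (j := fun s => ⟨(s.2.1.1 + s.2.2.1, s.2.1.2 + s.2.2.2), ((s.2.1.1, s.2.2.1), (s.2.1.2, s.2.2.2))⟩)
    ?_ ?_ ?_ ?_ ?_
  · rintro ⟨⟨i, j⟩, ⟨⟨i1, i2⟩, ⟨j1, j2⟩⟩⟩ h
    simp only [Finset.mem_sigma, Finset.HasAntidiagonal.mem_antidiagonal, Finset.mem_product] at h ⊢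
    exact ⟨by omega, trivial, trivial⟩
  · rintro ⟨⟨i, j⟩, ⟨⟨i1, i2⟩, ⟨j1, j2⟩⟩⟩ h
    simp only [Finset.mem_sigma, Finset.HasAntidiagonal.mem_antidiagonal, Finset.mem_product] at h ⊢
    exact ⟨by omega, trivial, trivial⟩
  · rintro ⟨⟨i, j⟩, ⟨⟨i1, i2⟩, ⟨j1, j2⟩⟩⟩ h
    simp only [Finset.mem_sigma, Finset.HasAntidiagonal.mem_antidiagonal, Finset.mem_product] at h ⊢
    obtain ⟨h1, h2, h3⟩ := h
    subst h2
    subst h3
    rfl
  · rintro ⟨⟨i, j⟩, ⟨⟨i1, i2⟩, ⟨j1, j2⟩⟩⟩ h
    simp only [Finset.mem_sigma, Finset.HasAntidiagonal.mem_antidiagonal, Finset.mem_product] at h ⊢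
    obtain ⟨h1, h2, h3⟩ := h
    subst h2
    subst h3
    rfl
  · rintro ⟨⟨i, j⟩, ⟨⟨i1, i2⟩, ⟨j1, j2⟩⟩⟩ _
    rfl

private noncomputable def h37_evt : OO k →+* PowerSeries k where
  toFun := h37_dg
  map_one' := by
    have : (1 : OO k) = PowerSeries.C 1 := (map_one _).symm
    rw [this, h37_C]
  map_mul' := h37_mul
  map_zero' := by
    have : (0 : OO k) = PowerSeries.C 0 := (map_zero _).symm
    rw [this, h37_C]
  map_add' F G := by
    ext N
    rw [map_add, h37_coeff, h37_coeff, h37_coeff, ← Finset.sum_add_distrib]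
    refine Finset.sum_congr rfl fun p _ => ?_
    rw [map_add, map_add]

/-- SR-D6c: evaluation at `u = t` -/
theorem exists_evt (k : Type) [Field k] : ∃ e : OO k →+* PowerSeries k,
    e (uO k) = PowerSeries.X ∧ e (tO k) = PowerSeries.X ∧
    (∀ y : PowerSeries k, e (PowerSeries.C y) = y) ∧
    ∀ (H : (PowerSeries k)[X][X]) (y : PowerSeries k),
      e ((H.map (jO k)).eval (PowerSeries.C y)) = evalEval PowerSeries.X y H := by
  have hC : ∀ y : PowerSeries k, h37_evt (PowerSeries.C y) = y := h37_C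
  have hu : h37_evt (uO k) = PowerSeries.X := by
    rw [uO, hC]
  refine ⟨h37_evt, hu, ?_, hC, fun H y => ?_⟩
  · ext N
    change PowerSeries.coeff N (h37_dg (tO k)) = _
    rw [h37_coeff, tO]
    have h1 : ∀ p ∈ Finset.HasAntidiagonal.antidiagonal N,
        PowerSeries.coeff p.2 (PowerSeries.coeff p.1 (PowerSeries.X : OO k)) =
          if p = (1, 0) then 1 else 0 := by
      intro p _
      rw [PowerSeries.coeff_X]
      by_cases h : p.1 = 1
      · rw [if_pos h, PowerSeries.coeff_one]
        by_cases h' : p.2 = 0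
        · rw [if_pos h', if_pos (Prod.ext h h')]
        · rw [if_neg h', if_neg]
          rintro rfl
          exact h' rfl
      · rw [if_neg h, map_zero, if_neg]
        rintro rfl
        exact h rfl
    rw [Finset.sum_congr rfl h1, Finset.sum_ite_eq', PowerSeries.coeff_X]
    simp only [Finset.HasAntidiagonal.mem_antidiagonal]
    by_cases h : N = 1
    · simp [h]
    · rw [if_neg h, if_neg]
      omega
  · rw [h37_eval_jO h37_evt PowerSeries.X ?_ hu H y, hC]
    intro a
    change h37_dg _ = a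
    ext N
    rw [h37_coeff, Finset.sum_eq_single (N, 0)]
    · simp
    · intro p hp hne
      have hp1 : p.2 ≠ 0 := by
        intro h
        apply hne
        have := Finset.HasAntidiagonal.mem_antidiagonal.1 hp
        exact Prod.ext (by simp only; omega) h
      rw [PowerSeries.coeff_map, PowerSeries.coeff_C, if_neg hp1]
    · intro h
      exact absurd (Finset.HasAntidiagonal.mem_antidiagonal.2 (by simp)) h

end series

end Pool.Agent.Helper54.SR
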